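import Pool.Agent.helper71.AA.Defs

/-! # Project AA (MP_ad8ced_nt), module K3: diagonal terms -/

namespace Pool.Agent.helper71.AA

open Finset

/-- the primes of the sieve dividing `a p² - 1` are different from `p` -/
theorem K3_At_sub (Q : Finset ℕ) (W a₀ : ℕ) (X : ℝ) (a p : ℕ) (ha : a ∈ As W a₀ X)
    (hp : p.Prime) : At Q p a ⊆ Q.erase p := by
  intro l hl
  obtain ⟨hlQ, hdiv⟩ := Finset.mem_filter.mp hl
  refine Finset.mem_erase.mpr ⟨?_, hlQ⟩
  rintro rfl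
  have ha1 : 1 ≤ a := (Finset.mem_Icc.mp (Finset.mem_filter.mp ha).1).1
  have hpos : 1 ≤ a * l ^ 2 := Nat.one_le_iff_ne_zero.mpr
    (Nat.mul_ne_zero (by omega) (pow_ne_zero _ hp.ne_zero))
  have h1 : l ∣ a * l ^ 2 := (dvd_pow_self l (by norm_num)).mul_left a
  have h2 : l ∣ 1 := by
    have h3 : a * l ^ 2 - (a * l ^ 2 - 1) = 1 := by omega
    rw [← h3]
    exact Nat.dvd_sub h1 hdiv
  exact hp.one_lt.ne' (Nat.dvd_one.mp h2)

theorem K3_Vf_nonneg (c : ℝ) (hc : 0 ≤ c) (v : ℕ → ℝ) (hv : ∀ l, 0 ≤ v l ∧ v l ≤ 1)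
    (A : Finset ℕ) : 0 ≤ Vf c v A :=
  add_nonneg hc (Finset.sum_nonneg fun l _ => (hv l).1)

theorem K3_Vf_le (c : ℝ) (hc : c ≤ 2) (v : ℕ → ℝ) (hv : ∀ l, 0 ≤ v l ∧ v l ≤ 1)
    (A : Finset ℕ) : Vf c v A ≤ 2 + A.card := by
  have : ∑ l ∈ A, v l ≤ ∑ l ∈ A, (1 : ℝ) := Finset.sum_le_sum fun l _ => (hv l).2
  rw [Finset.sum_const, nsmul_eq_mul, mul_one] at this
  unfold Vf
  linarith

/-- growth: `C log X loglog X ≤ P` gives `P / log P ≥ (C / 2) log X` -/
theorem K3_growth (C : ℝ) (hC : 0 < C) : ∃ X₀ : ℝ, ∀ X P : ℝ, X₀ ≤ X →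
    C * Real.log X * Real.log (Real.log X) ≤ P →
      1 ≤ Real.log X ∧ C / 2 * Real.log X ≤ P / Real.log P := by
  -- y = log X, need log (C y log y) ≤ 2 log y and C y log y ≥ e
  have h1 : ∀ᶠ y : ℝ in Filter.atTop, C * Real.log y ≤ y := by
    have := Real.isLittleO_log_id_atTop.def (show (0 : ℝ) < 1 / C by positivity)
    filter_upwards [this, Filter.eventually_ge_atTop (1 : ℝ)] with y hy hy1
    simp only [id, Real.norm_eq_abs] at hy
    rw [abs_of_nonneg (Real.log_nonneg hy1), abs_of_nonneg (by linarith)] at hy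
    calc C * Real.log y ≤ C * (1 / C * y) := mul_le_mul_of_nonneg_left hy hC.le
      _ = y := by field_simp
  have h2 : ∀ᶠ y : ℝ in Filter.atTop, Real.exp 1 ≤ C * y * Real.log y := by
    have ht : Filter.Tendsto (fun y : ℝ => C * y * Real.log y) Filter.atTop Filter.atTop := by
      refine Filter.Tendsto.atTop_mul_atTop₀ ?_ Real.tendsto_log_atTop
      exact Filter.Tendsto.const_mul_atTop hC Filter.tendsto_id
    exact ht.eventually_ge_atTop _
  have h3 : ∀ᶠ X : ℝ in Filter.atTop, (C * Real.log (Real.log X) ≤ Real.log X ∧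
      Real.exp 1 ≤ C * Real.log X * Real.log (Real.log X)) ∧ 2 ≤ Real.log X :=
    (Real.tendsto_log_atTop.eventually (h1.and h2)).and
      (Real.tendsto_log_atTop.eventually_ge_atTop 2)
  obtain ⟨X₀, hX₀⟩ := Filter.eventually_atTop.mp h3
  refine ⟨X₀, fun X P hX hP => ?_⟩
  obtain ⟨⟨ha, hb⟩, hc⟩ := hX₀ X hX
  refine ⟨by linarith, ?_⟩
  set y := Real.log X with hy
  have hly : 0 < Real.log y := Real.log_pos (by linarith)
  set P₀ := C * y * Real.log y with hP₀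
  have hP₀pos : 0 < P₀ := lt_of_lt_of_le (Real.exp_pos _) hb
  -- log P₀ ≤ 2 log y
  have hl : Real.log P₀ ≤ 2 * Real.log y := by
    have : P₀ ≤ y ^ 2 := by
      rw [hP₀]
      calc C * y * Real.log y = y * (C * Real.log y) := by ring
        _ ≤ y * y := mul_le_mul_of_nonneg_left ha (by linarith)
        _ = y ^ 2 := by ring
    calc Real.log P₀ ≤ Real.log (y ^ 2) := Real.log_le_log hP₀pos this
      _ = 2 * Real.log y := by rw [Real.log_pow]; norm_num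
  have hl1 : 1 ≤ Real.log P₀ := by
    rw [Real.le_log_iff_exp_le hP₀pos]; exact hb
  have hmono : P₀ / Real.log P₀ ≤ P / Real.log P := by
    have hP₀e : Real.exp 1 ≤ P₀ := hb
    have hPe : Real.exp 1 ≤ P := hb.trans hP
    have := Real.log_div_self_antitoneOn (a := P₀) (b := P) hP₀e hPe hP
    simp only at this
    have hlP : 0 < Real.log P := by
      have : 1 ≤ Real.log P := by
        rw [Real.le_log_iff_exp_le (by linarith [Real.exp_pos 1])]; exact hPe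
      linarith
    have hPpos : 0 < P := by linarith
    rw [div_le_div_iff₀ (by linarith) hlP]
    rw [div_le_div_iff₀ hPpos hP₀pos] at this
    linarith
  refine le_trans ?_ hmono
  rw [le_div_iff₀ (by linarith)]
  calc C / 2 * y * Real.log P₀ ≤ C / 2 * y * (2 * Real.log y) :=
        mul_le_mul_of_nonneg_left hl (by positivity)
    _ = P₀ := by rw [hP₀]; ring

theorem diag_of
    (hSg : ∀ (Q A : Finset ℕ), A ⊆ Q → (∀ l ∈ Q, 2 ≤ l) → ∀ R : ℝ,
      |Sg Q R A| ≤ 2 ^ A.card * Gs Q R)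
    (hGs : ∀ (w : ℕ), 10 ≤ w → ∃ X₀ : ℝ, ∀ X : ℝ, X₀ ≤ X → ∀ (Z : ℕ) (Q : Finset ℕ),
      Q ⊆ Qs w Z → ∀ R : ℝ, R ≤ X ^ (0.2 : ℝ) → Gs Q R ≤ Aw w * Real.log X)
    (hAt : ∀ (η X P : ℝ), 0 < η → 2 ≤ X → P ≤ X ^ (0.001 : ℝ) → ∀ (W a₀ b : ℕ)
      (a : ℕ), a ∈ As W a₀ X → ∀ (p : ℕ), p ∈ Ps W b P → ∀ (Q S : Finset ℕ),
      (∀ l ∈ Q, l.Prime) → S ⊆ At Q p a → (∀ l ∈ S, X ^ η < (l : ℝ)) →
      (S.card : ℝ) ≤ 1.002 / η)
    (hmean : ∀ (δ ε : ℝ), 0 < δ → 0 < ε → ∀ (w : ℕ), 10 ≤ w → ∃ X₀ : ℝ,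
      ∀ X : ℝ, X₀ ≤ X → ∀ a₀ : ℕ, ∀ (R c : ℝ) (v : ℕ → ℝ), Adm X δ R c v → ∀ p : ℕ, p.Prime →
        |∑ a ∈ As (primorial w) a₀ X, fw w X R c v p a -
          X / (primorial w : ℝ) * mw w X R c v p| ≤ ε * (X / (primorial w : ℝ)))
    (hmw : ∀ (δ : ℝ), 0 < δ → ∃ B : ℝ, 0 < B ∧ ∀ w : ℕ, 10 ≤ w → ∃ X₀ : ℝ,
      ∀ X : ℝ, X₀ ≤ X → ∀ (R c : ℝ) (v : ℕ → ℝ), Adm X δ R c v → ∀ p : ℕ,
        0 ≤ mw w X R c v p ∧ mw w X R c v p ≤ B * (Aw w * Real.log X))
    (hlow : ∀ w : ℕ, ∃ P₀ : ℝ, ∀ P : ℝ, P₀ ≤ P → ∀ b : ℕ, b.Coprime (primorial w) →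
      P / (32 * (Nat.totient (primorial w) : ℝ) * Real.log P) ≤
        (((Ps (primorial w) b P).card : ℕ) : ℝ))
    (δ η ε : ℝ) (hδ : 0 < δ) (hη : 0 < η) (hε : 0 < ε) (w : ℕ) (hw : 10 ≤ w) :
    ∃ C X₀ : ℝ, 0 < C ∧ ∀ X P : ℝ, X₀ ≤ X → Rg C X P → ∀ a₀ b : ℕ, b.Coprime (primorial w) →
    ∀ (R c : ℝ) (v : ℕ → ℝ), Adm X δ R c v →
      ∑ p ∈ Ps (primorial w) b P, ∑ a ∈ As (primorial w) a₀ X, ft w X η R c v p a ^ 2 ≤
        ε * (X / (primorial w : ℝ)) *
          (((Ps (primorial w) b P).card : ℝ) * (Aw w * Real.log X)) ^ 2 := by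
  obtain ⟨B, hB, hB'⟩ := hmw δ hδ
  obtain ⟨X₁, hX₁⟩ := hB' w hw
  obtain ⟨X₂, hX₂⟩ := hmean δ 1 hδ one_pos w hw
  obtain ⟨X₃, hX₃⟩ := hGs w hw
  obtain ⟨P₀, hP₀⟩ := hlow w
  have hWpos : 0 < primorial w := primorial_pos w
  have hWr : (0 : ℝ) < (primorial w : ℝ) := by exact_mod_cast hWpos
  have hφ : (0 : ℝ) < (Nat.totient (primorial w) : ℝ) := by
    exact_mod_cast Nat.totient_pos.mpr hWpos
  have hAw : 0 < Aw w := div_pos hφ hWr
  set K : ℝ := (4 : ℝ) ^ (1.002 / η) * (2 + 1.002 / η) with hK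
  have hKpos : 0 < K := by positivity
  set C : ℝ := 64 * (Nat.totient (primorial w) : ℝ) * K * (B * Aw w + 1) / ε with hC
  have hCpos : 0 < C := by positivity
  obtain ⟨X₄, hX₄⟩ := K3_growth C hCpos
  -- P ≥ P₀ for X large
  have hP₀large : ∃ X₅ : ℝ, ∀ X : ℝ, X₅ ≤ X → P₀ ≤ C * Real.log X * Real.log (Real.log X) := by
    have ht : Filter.Tendsto (fun X : ℝ => C * Real.log X * Real.log (Real.log X))
        Filter.atTop Filter.atTop := by
      refine Filter.Tendsto.atTop_mul_atTop₀ ?_ (Real.tendsto_log_atTop.comp Real.tendsto_log_atTop)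
      exact Filter.Tendsto.const_mul_atTop hCpos Real.tendsto_log_atTop
    exact Filter.eventually_atTop.mp (ht.eventually_ge_atTop P₀)
  obtain ⟨X₅, hX₅⟩ := hP₀large
  refine ⟨C, max (max (max X₁ X₂) (max X₃ X₄)) (max X₅ 2), hCpos, ?_⟩
  intro X P hX hRg a₀ b hb R c v hAdm
  have hXX₁ : X₁ ≤ X := le_trans (le_trans (le_max_left _ _) (le_trans (le_max_left _ _) (le_max_left _ _))) hX
  have hXX₂ : X₂ ≤ X := le_trans (le_trans (le_max_right _ _) (le_trans (le_max_left _ _) (le_max_left _ _))) hX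
  have hXX₃ : X₃ ≤ X := le_trans (le_trans (le_max_left _ _) (le_trans (le_max_right _ _) (le_max_left _ _))) hX
  have hXX₄ : X₄ ≤ X := le_trans (le_trans (le_max_right _ _) (le_trans (le_max_right _ _) (le_max_left _ _))) hX
  have hXX₅ : X₅ ≤ X := le_trans (le_trans (le_max_left _ _) (le_max_right _ _)) hX
  have hX2 : 2 ≤ X := le_trans (le_trans (le_max_right _ _) (le_max_right _ _)) hX
  obtain ⟨hlog1, hgr⟩ := hX₄ X P hXX₄ hRg.1
  obtain ⟨hR1, hR2, hc0, hc2, hv, hvs⟩ := hAdm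
  have hXpos : 0 < X := by linarith
  set Lam := Aw w * Real.log X with hLam
  have hLam0 : 0 < Lam := by positivity
  set W := primorial w with hW
  set N : ℝ := ((Ps W b P).card : ℝ) with hN
  have hQprime : ∀ l ∈ QX w X, l.Prime := fun l hl => (Finset.mem_filter.mp hl).2
  have hQ2 : ∀ p : ℕ, ∀ l ∈ (QX w X).erase p, 2 ≤ l := fun p l hl =>
    (hQprime l (Finset.mem_of_mem_erase hl)).two_le
  -- pointwise bounds
  have hfw0 : ∀ p a : ℕ, 0 ≤ fw w X R c v p a := fun p a =>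
    mul_nonneg (sq_nonneg _) (K3_Vf_nonneg c hc0 v hv _)
  have hft0 : ∀ p a : ℕ, 0 ≤ ft w X η R c v p a := by
    intro p a
    unfold ft
    split_ifs
    · exact hfw0 p a
    · exact le_rfl
  have hftle : ∀ p a : ℕ, ft w X η R c v p a ≤ fw w X R c v p a := by
    intro p a
    unfold ft
    split_ifs
    · exact le_rfl
    · exact hfw0 p a
  have hftK : ∀ p ∈ Ps W b P, ∀ a ∈ As W a₀ X, ft w X η R c v p a ≤ K * Lam ^ 2 := by
    intro p hp a ha
    have hpp : p.Prime := (Finset.mem_filter.mp hp).2.1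
    unfold ft
    split_ifs with h
    · set A := At (QX w X) p a with hA
      have hcard : (A.card : ℝ) ≤ 1.002 / η :=
        hAt η X P hη hX2 hRg.2 W a₀ b a ha p hp (QX w X) A hQprime (Finset.Subset.refl _) h
      have hsub : A ⊆ (QX w X).erase p := K3_At_sub (QX w X) W a₀ X a p ha hpp
      have h1 := hSg ((QX w X).erase p) A hsub (hQ2 p) R
      have h2 : Gs ((QX w X).erase p) R ≤ Lam :=
        hX₃ X hXX₃ ⌊X ^ (0.43 : ℝ)⌋₊ ((QX w X).erase p) (Finset.erase_subset _ _) R hR2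
      have h3 : |Sg ((QX w X).erase p) R A| ≤ 2 ^ A.card * Lam :=
        h1.trans (mul_le_mul_of_nonneg_left h2 (by positivity))
      have h4 : Sg ((QX w X).erase p) R A ^ 2 ≤ (4 : ℝ) ^ (1.002 / η) * Lam ^ 2 := by
        calc Sg ((QX w X).erase p) R A ^ 2 = |Sg ((QX w X).erase p) R A| ^ 2 := (sq_abs _).symm
          _ ≤ (2 ^ A.card * Lam) ^ 2 := pow_le_pow_left₀ (abs_nonneg _) h3 2
          _ = (4 : ℝ) ^ A.card * Lam ^ 2 := by
              rw [mul_pow, ← pow_mul, mul_comm A.card 2, pow_mul]; norm_num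
          _ ≤ (4 : ℝ) ^ (1.002 / η) * Lam ^ 2 := by
              refine mul_le_mul_of_nonneg_right ?_ (by positivity)
              rw [← Real.rpow_natCast]
              exact Real.rpow_le_rpow_of_exponent_le (by norm_num) hcard
      have h5 : Vf c v A ≤ 2 + 1.002 / η := (K3_Vf_le c hc2 v hv A).trans (by linarith)
      calc fw w X R c v p a = Sg ((QX w X).erase p) R A ^ 2 * Vf c v A := rfl
        _ ≤ ((4 : ℝ) ^ (1.002 / η) * Lam ^ 2) * (2 + 1.002 / η) :=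
            mul_le_mul h4 h5 (K3_Vf_nonneg c hc0 v hv _) (by positivity)
        _ = K * Lam ^ 2 := by rw [hK]; ring
    · positivity
  -- sum over a
  have hsa : ∀ p ∈ Ps W b P, ∑ a ∈ As W a₀ X, ft w X η R c v p a ^ 2 ≤
      K * Lam ^ 2 * (X / W * (B * Lam + 1)) := by
    intro p hp
    have hpp : p.Prime := (Finset.mem_filter.mp hp).2.1
    have h1 := hX₂ X hXX₂ a₀ R c v ⟨hR1, hR2, hc0, hc2, hv, hvs⟩ p hpp
    have h2 := (hX₁ X hXX₁ R c v ⟨hR1, hR2, hc0, hc2, hv, hvs⟩ p).2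
    have hXW : 0 ≤ X / (W : ℝ) := by positivity
    have h3 : ∑ a ∈ As W a₀ X, fw w X R c v p a ≤ X / W * (B * Lam + 1) := by
      have h4 := (abs_le.mp h1).2
      have h5 : X / (W : ℝ) * mw w X R c v p ≤ X / W * (B * Lam) :=
        mul_le_mul_of_nonneg_left h2 hXW
      calc ∑ a ∈ As W a₀ X, fw w X R c v p a ≤ X / W * mw w X R c v p + 1 * (X / W) := by
            linarith
        _ ≤ X / W * (B * Lam) + 1 * (X / W) := by linarith
        _ = _ := by ring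
    calc ∑ a ∈ As W a₀ X, ft w X η R c v p a ^ 2
        ≤ ∑ a ∈ As W a₀ X, K * Lam ^ 2 * fw w X R c v p a := by
          refine Finset.sum_le_sum fun a ha => ?_
          rw [sq]
          exact mul_le_mul (hftK p hp a ha) (hftle p a) (hft0 p a) (by positivity)
      _ = K * Lam ^ 2 * ∑ a ∈ As W a₀ X, fw w X R c v p a := by rw [Finset.mul_sum]
      _ ≤ _ := mul_le_mul_of_nonneg_left h3 (by positivity)
  -- number of primes
  have hNlow : C * Real.log X / (64 * (Nat.totient W : ℝ)) ≤ N := by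
    have h1 := hP₀ P ((hX₅ X hXX₅).trans hRg.1) b hb
    refine le_trans ?_ h1
    have h2 : P / (32 * (Nat.totient W : ℝ) * Real.log P) =
        (P / Real.log P) / (32 * (Nat.totient W : ℝ)) := by
      rw [div_div, mul_comm (Real.log P)]
    rw [h2, div_le_div_iff₀ (by positivity) (by positivity)]
    calc C * Real.log X * (32 * (Nat.totient W : ℝ))
        = (C / 2 * Real.log X) * (64 * (Nat.totient W : ℝ)) := by ring
      _ ≤ P / Real.log P * (64 * (Nat.totient W : ℝ)) :=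
          mul_le_mul_of_nonneg_right hgr (by positivity)
  have hkey : K * (B * Lam + 1) ≤ ε * N := by
    have h1 : C * Real.log X / (64 * (Nat.totient W : ℝ)) =
        K * (B * Aw w + 1) / ε * Real.log X := by
      rw [hC]; field_simp
    rw [h1] at hNlow
    have h2 : K * (B * Lam + 1) ≤ K * ((B * Aw w + 1) * Real.log X) := by
      refine mul_le_mul_of_nonneg_left ?_ hKpos.le
      rw [hLam]
      nlinarith
    calc K * (B * Lam + 1) ≤ K * ((B * Aw w + 1) * Real.log X) := h2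
      _ = ε * (K * (B * Aw w + 1) / ε * Real.log X) := by field_simp
      _ ≤ ε * N := mul_le_mul_of_nonneg_left hNlow hε.le
  have hN0 : 0 ≤ N := by rw [hN]; positivity
  calc ∑ p ∈ Ps W b P, ∑ a ∈ As W a₀ X, ft w X η R c v p a ^ 2
      ≤ ∑ p ∈ Ps W b P, K * Lam ^ 2 * (X / W * (B * Lam + 1)) := Finset.sum_le_sum hsa
    _ = N * (K * Lam ^ 2 * (X / W * (B * Lam + 1))) := by
        rw [Finset.sum_const, nsmul_eq_mul]
    _ = (N * Lam ^ 2 * (X / W)) * (K * (B * Lam + 1)) := by ring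
    _ ≤ (N * Lam ^ 2 * (X / W)) * (ε * N) := mul_le_mul_of_nonneg_left hkey (by positivity)
    _ = ε * (X / W) * (N * Lam) ^ 2 := by ring

end Pool.Agent.helper71.AA
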